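import Mathlib

set_option autoImplicit false

namespace Pool.Agent.Results.MP_6850eb_nt.Counter

/-- `s` satisfies the recursion defining `s_a` on the positive integers -/
def IsS (a : ℤ) (s : ℕ → ℤ) : Prop :=
  s 1 = a ∧ ∀ k, 1 ≤ k → s (2 * k) = 2 * s k + 2 ∧ s (2 * k + 1) = 3 * s k + 3

theorem result : (∀ s, IsS 3 s → s 2043 = 177150 ∧ s 21504 = 177150) ∧
    (∀ s, IsS (-4) s → s 51 = -258 ∧ s 128 = -258) ∧
    ¬ ∀ a : ℤ, (a < -3 ∨ 2 < a) → ∀ s, IsS a s → ∀ m n, 1 ≤ m → 1 ≤ n → s m = s n → m = n := by
  have h3 : ∀ s, IsS 3 s → s 2043 = 177150 ∧ s 21504 = 177150 := fun s ⟨h1, h⟩ => by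
    have := h 1; have := h 3; have := h 7; have := h 15; have := h 31; have := h 63; have := h 127
    have := h 255; have := h 510; have := h 1021; have := h 2; have := h 5; have := h 10; have := h 21
    have := h 42; have := h 84; have := h 168; have := h 336; have := h 672; have := h 1344; have := h 2688
    have := h 5376; have := h 10752
    clear h; norm_num at *; omega
  refine ⟨h3, fun s ⟨h1, h⟩ => ?_, fun h => ?_⟩
  · have := h 1; have := h 3; have := h 6; have := h 12; have := h 25; have := h 2; have := h 4; have := h 8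
    have := h 16; have := h 32; have := h 64
    clear h; norm_num at *; omega
  · let s : ℕ → ℤ := Nat.binaryRec 0 fun b n x => if n = 0 then (if b then 3 else 0) else
      if b then 3 * x + 3 else 2 * x + 2
    have hs : IsS 3 s := ⟨rfl, fun k hk => by
      have e : ∀ b, s (Nat.bit b k) = _ := fun b => Nat.binaryRec_eq b k (.inr fun _ => by omega)
      have e0 := e false
      have e1 := e true
      rw [if_neg (by omega)] at e0 e1
      exact ⟨e0, e1⟩⟩
    exact absurd (h 3 (.inr (by norm_num)) s hs 2043 21504 (by norm_num) (by norm_num)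
      ((h3 s hs).1.trans (h3 s hs).2.symm)) (by norm_num)

end Pool.Agent.Results.MP_6850eb_nt.Counter
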